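import Mathlib

open Polynomial Set

namespace Pool.Agent.Results.MP_512501_an.Counter

def bd (u v : ℕ) : ℕ := v ^ 2 * (max (u - 52) (52 - u) ⊔ max (v - 52) (52 - v)) * (2161 - u) ^ 100

def chk : ℕ → List ℕ → Bool
  | u, [] => decide (2161 ≤ u)
  | u, v :: l => decide (bd u v ≤ 4000 ^ 2 * 3948 * 1839 ^ 100) && chk v l

lemma cast_abs (u : ℕ) : |(u : ℝ) - 52| = ((max (u - 52) (52 - u) : ℕ) : ℝ) := by
  rcases le_total u 52 with h | h
  · rw [Nat.sub_eq_zero_of_le h, max_eq_right (Nat.zero_le _), Nat.cast_sub h, abs_sub_comm,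
      abs_of_nonneg (by exact_mod_cast sub_nonneg.2 (Int.ofNat_le.2 h))]
    norm_num
  · rw [Nat.sub_eq_zero_of_le h, max_eq_left (Nat.zero_le _), Nat.cast_sub h,
      abs_of_nonneg (by exact_mod_cast sub_nonneg.2 (Int.ofNat_le.2 h))]
    norm_num

lemma step (u v : ℕ) (t : ℝ) (h1 : (u : ℝ) ≤ t) (h2 : t ≤ v) (h3 : t ≤ 2161) :
    t ^ 2 * |t - 52| * (2161 - t) ^ 100 ≤ (bd u v : ℝ) := by
  have hu : u ≤ 2161 := by exact_mod_cast h1.trans h3
  have h0 : (0 : ℝ) ≤ t := (Nat.cast_nonneg u).trans h1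
  have ha : |t - 52| ≤ ((max (u - 52) (52 - u) ⊔ max (v - 52) (52 - v) : ℕ) : ℝ) := by
    rw [Nat.cast_max, ← cast_abs, ← cast_abs]
    exact abs_le_max_abs_abs (by linarith) (by linarith)
  unfold bd
  rw [Nat.cast_mul, Nat.cast_mul, Nat.cast_pow, Nat.cast_pow, Nat.cast_sub hu]
  have : (0 : ℝ) ≤ 2161 - t := by linarith
  have e : ((2161 : ℕ) : ℝ) = 2161 := by norm_num
  rw [e]
  gcongr

lemma chk_ok (l : List ℕ) : ∀ u : ℕ, chk u l = true → ∀ t : ℝ, (u : ℝ) ≤ t → t ≤ 2161 →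
    t ^ 2 * |t - 52| * (2161 - t) ^ 100 ≤ 4000 ^ 2 * 3948 * 1839 ^ 100 := by
  induction l with
  | nil =>
    intro u h t h1 h2
    simp only [chk, decide_eq_true_eq] at h
    have : (2161 : ℝ) ≤ u := by exact_mod_cast h
    have ht : t = 2161 := by linarith
    rw [ht, sub_self, zero_pow (by norm_num), mul_zero]
    positivity
  | cons v l ih =>
    intro u h t h1 h2
    simp only [chk, Bool.and_eq_true, decide_eq_true_eq] at h
    rcases le_total t v with h3 | h3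
    · refine (step u v t h1 h3 h2).trans ?_
      exact_mod_cast h.1
    · exact ih v h.2 t h3 h2

lemma bound (t : ℝ) (h0 : 0 ≤ t) (h1 : t ≤ 4000) :
    |t ^ 2 * (t - 52) * (t - 2161) ^ 100| ≤ 4000 ^ 2 * 3948 * 1839 ^ 100 := by
  rcases le_total t 2161 with h | h
  · have := chk_ok [10, 15, 18, 20, 22, 24, 26, 28, 30, 33, 39, 54, 68, 77, 84, 91, 98, 107,
      120, 143, 199, 478, 2161] 0 (by decide +kernel) t (by simpa using h0) h
    rw [abs_mul, abs_mul, abs_pow, abs_pow, abs_of_nonneg h0, abs_sub_comm t 2161,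
      abs_of_nonneg (by linarith : (0 : ℝ) ≤ 2161 - t)]
    exact this
  · have h2 : (0 : ℝ) ≤ t - 2161 := by linarith
    have h3 : (0 : ℝ) ≤ t - 52 := by linarith
    rw [abs_of_nonneg (by positivity)]
    gcongr <;> linarith

noncomputable def Q (n : ℕ) : ℝ[X] :=
  (X - C (-1)) ^ 2 * (X - C (-487 / 500)) * (X - C (161 / 2000)) ^ n

lemma Q_eval (n : ℕ) (x : ℝ) : (Q n).eval x = (2000 * (x + 1)) ^ 2 * (2000 * (x + 1) - 52) *
    (2000 * (x + 1) - 2161) ^ n / (2000 ^ 3 * 2000 ^ n) := by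
  have e1 : 2000 * (x + 1) - 52 = 2000 * (x - -487 / 500) := by ring
  have e2 : 2000 * (x + 1) - 2161 = 2000 * (x - 161 / 2000) := by ring
  rw [e1, e2, mul_pow, mul_pow, eq_div_iff (by positivity)]
  simp only [Q, eval_mul, eval_pow, eval_sub, eval_X, eval_C]
  ring

lemma Q_der (n : ℕ) (x : ℝ) : (Q n).derivative.eval x =
    (2 * (x + 1) * (x + 487 / 500) + (x + 1) ^ 2) * (x - 161 / 2000) ^ n +
      (x + 1) ^ 2 * (x + 487 / 500) * (n * (x - 161 / 2000) ^ (n - 1)) := by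
  simp only [Q, derivative_mul, derivative_X_sub_C_pow, derivative_sub, derivative_X,
    derivative_C, eval_mul, eval_add, eval_pow, eval_sub, eval_X, eval_C, eval_one, eval_zero,
    eval_natCast, Nat.reduceSub]
  push_cast
  ring

lemma Q_deg (n : ℕ) : (Q n).natDegree = 3 + n ∧
    (Q n).roots = 2 • {(-1 : ℝ)} + {(-487 / 500 : ℝ)} + n • {(161 / 2000 : ℝ)} := by
  have m1 : ((X - C (-1)) ^ 2 : ℝ[X]).Monic := (monic_X_sub_C _).pow _
  have m2 : (X - C (-487 / 500) : ℝ[X]).Monic := monic_X_sub_C _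
  have m3 : ((X - C (161 / 2000)) ^ n : ℝ[X]).Monic := (monic_X_sub_C _).pow _
  constructor
  · rw [Q, (m1.mul m2).natDegree_mul m3, m1.natDegree_mul m2, natDegree_pow, natDegree_pow,
      natDegree_X_sub_C, natDegree_X_sub_C, natDegree_X_sub_C, mul_one, mul_one]
  · rw [Q, roots_mul ((m1.mul m2).mul m3).ne_zero, roots_mul (m1.mul m2).ne_zero, roots_pow,
      roots_pow, roots_X_sub_C, roots_X_sub_C, roots_X_sub_C]

theorem result : ∃ Q : ℝ[X], 1 ≤ Q.natDegree ∧ Q.roots.card = Q.natDegree ∧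
    (∀ z ∈ Q.roots, z ∈ Icc (-1 : ℝ) 1) ∧
    (∀ x ∈ Icc (-1 : ℝ) 1, |Q.eval x| ≤ |Q.eval 1|) ∧
    ∃ x₀ ∈ Ioo (-1 : ℝ) 1,
      max |Q.derivative.eval (-1)| |Q.derivative.eval 1| < |Q.derivative.eval x₀| := by
  obtain ⟨hd, hr⟩ := Q_deg 100
  refine ⟨Q 100, by rw [hd]; norm_num, ?_, ?_, ?_, -249 / 250, by norm_num, ?_⟩
  · rw [hd, hr, Multiset.card_add, Multiset.card_add, Multiset.card_nsmul, Multiset.card_nsmul,
      Multiset.card_singleton, Multiset.card_singleton, Multiset.card_singleton]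
  · intro z hz
    rw [hr] at hz
    simp only [Multiset.mem_add, Multiset.mem_nsmul, Multiset.mem_singleton] at hz
    rcases hz with (⟨-, h⟩ | h) | ⟨-, h⟩ <;> rw [h] <;> norm_num
  · intro x hx
    have hb := bound (2000 * (x + 1)) (by linarith [hx.1]) (by linarith [hx.2])
    rw [Q_eval, Q_eval, abs_div, abs_div]
    refine div_le_div_of_nonneg_right (hb.trans (le_of_eq ?_)) (abs_nonneg _)
    rw [abs_of_nonneg (by positivity)]
    norm_num
  · rw [Q_der, Q_der, Q_der]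
    norm_num [abs_of_nonneg, abs_of_neg]

end Pool.Agent.Results.MP_512501_an.Counter
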